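import Pool.Agent.BW36.Main

/-!
# MP_28d996_co: free sets of bounded width are exponentially small

`A ⊆ F_3^n` is free if it contains no progression `x, x + d, x + 2d` with `d` a nonzero zero-one vector. Read the
coordinates in some order in blocks of `l` and suppose that, whatever was read before, a block leads to at most
`w` different sections of `A`. This holds for every `l` if `A` is recognised by a read-once branching program of
width `w` (or by a finite automaton with `w` states), and it holds if `A` depends on every block only through a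
function with `w` values. Then `A` has at most `3^n (10 w (log l)^(-1/16))^⌊n/l⌋` elements.
-/

set_option autoImplicit false

namespace Pool.Agent.BW36.Shelf.BoundedWidth

open Finset

/-- The first `i` coordinates in the order `σ`. -/
def First {n : ℕ} (σ : Equiv.Perm (Fin n)) (i : ℕ) : Finset (Fin n) :=
  univ.filter (fun j => (σ j : ℕ) < i)

/-- The section of `A` over the first `i` coordinates of `y`: the vectors `z` such that the vector equal to `y`
on the first `i` coordinates and to `z` on the others is in `A`. -/
def Section {n : ℕ} (A : Finset (Fin n → ZMod 3)) (σ : Equiv.Perm (Fin n)) (i : ℕ)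
    (y : Fin n → ZMod 3) : Finset (Fin n → ZMod 3) :=
  univ.filter (fun z => (fun j => if j ∈ First σ i then y j else z j) ∈ A)

/-- Blocks of `l` coordinates in the order `σ`: for all `t` and `y`, the vectors which agree with `y` on the first
`t` blocks have at most `w` different sections over the first `t + 1` blocks. -/
def Narrow {n : ℕ} (A : Finset (Fin n → ZMod 3)) (σ : Equiv.Perm (Fin n)) (l w : ℕ) : Prop :=
  ∀ t, t * l + l ≤ n → ∀ y : Fin n → ZMod 3,
    ((univ.filter (fun y' : Fin n → ZMod 3 => ∀ j ∈ First σ (t * l), y' j = y j)).image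
      (Section A σ (t * l + l))).card ≤ w

theorem result (n l w : ℕ) (hl : 2 ≤ l) (A : Finset (Fin n → ZMod 3))
    (hA : ∀ x d : Fin n → ZMod 3, (∀ i, d i = 0 ∨ d i = 1) → d ≠ 0 →
      ¬ (x ∈ A ∧ x + d ∈ A ∧ x + 2 • d ∈ A))
    (σ : Equiv.Perm (Fin n)) (hw : Narrow A σ l w) :
    (A.card : ℝ) ≤ 3 ^ n * (10 * w * Real.log l ^ (-(1 / 16) : ℝ)) ^ (n / l) := by
  have h := BW36.main hl A hA σ (w := w) hw
  rw [show (10 * w * Real.log l ^ (-(1 / 16) : ℝ) : ℝ) =
    w * (10 * Real.log l ^ (-(1 / 16) : ℝ)) by ring]
  exact h

end Pool.Agent.BW36.Shelf.BoundedWidth
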